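import Pool.Agent.Lib.MP_6bc78b_nt.MS.P5.Iface
import Pool.Agent.Lib.MP_6bc78b_nt.MS.P1.H70.PPow

/-! Project MS, Part V, module PPW: proper prime powers contribute `O(1)`. -/

set_option autoImplicit false

open Finset

namespace Pool.Agent.Lib.MP_6bc78b_nt.MS.P5.H22

open Pool.Agent.Lib.MP_6bc78b_nt.MS Pool.Agent.Lib.MP_6bc78b_nt.MS.P5
  Pool.Agent.Lib.MP_6bc78b_nt.MS.P1.H70

lemma geo (p : ℕ) (hp : 2 ≤ p) (N : ℕ) :
    ∑ m ∈ Icc 2 N, (1 / Real.sqrt p) ^ m ≤ 4 / (p : ℝ) := by
  have hp2 : (2 : ℝ) ≤ p := by exact_mod_cast hp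
  have hs0 : 0 < Real.sqrt p := Real.sqrt_pos.2 (by linarith)
  have hsq : Real.sqrt p * Real.sqrt p = p := Real.mul_self_sqrt (by linarith)
  have hs : (4 / 3 : ℝ) ≤ Real.sqrt p := by
    apply Real.le_sqrt_of_sq_le
    norm_num
    linarith
  have hr0 : 0 ≤ 1 / Real.sqrt p := by positivity
  have hr : 1 / Real.sqrt p ≤ 3 / 4 := by
    rw [div_le_div_iff₀ hs0 (by norm_num)]
    linarith
  have h1 : ∑ m ∈ Icc 2 N, (1 / Real.sqrt p) ^ m ≤
      (1 / Real.sqrt p) ^ 2 / (1 - 1 / Real.sqrt p) := by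
    have : Icc 2 N = Ico 2 (N + 1) := by
      ext x; simp only [mem_Icc, mem_Ico]; omega
    rw [this]
    exact geom_sum_Ico_le_of_lt_one hr0 (by linarith)
  have h2 : (1 / Real.sqrt p) ^ 2 = 1 / (p : ℝ) := by
    rw [div_pow, one_pow, sq, hsq]
  have h3 : (1 / (p : ℝ)) / (1 - 1 / Real.sqrt p) ≤ (1 / (p : ℝ)) / (1 / 4) :=
    div_le_div_of_nonneg_left (by positivity) (by norm_num) (by linarith)
  calc _ ≤ _ := h1
    _ = (1 / (p : ℝ)) / (1 - 1 / Real.sqrt p) := by rw [h2]
    _ ≤ _ := h3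
    _ = 4 / (p : ℝ) := by ring

/-- The sum over the proper prime powers. -/
theorem pp_sqrt (N : ℕ) :
    ∑ k ∈ (Icc 1 N).filter (fun k => ¬ k.Prime), Lm k / Real.sqrt k ≤
      4 * ∑ k ∈ Icc 1 N, Lm k / k := by
  set S : Finset ℕ := (Icc 1 N).filter (fun k => ¬ k.Prime ∧ IsPrimePow k) with hS
  have hsub : S ⊆ (Icc 1 N).filter (fun k => ¬ k.Prime) := by
    intro k hk
    rw [hS, mem_filter] at hk
    rw [mem_filter]
    exact ⟨hk.1, hk.2.1⟩
  rw [← Finset.sum_subset hsub (fun k hk hk' => by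
    rw [mem_filter] at hk
    have : ¬ IsPrimePow k := fun h => hk' (by rw [hS, mem_filter]; exact ⟨hk.1, hk.2, h⟩)
    have h0 : Lm k = 0 := by
      by_contra h
      exact this (ArithmeticFunction.vonMangoldt_ne_zero_iff.mp h)
    rw [h0]; simp)]
  set phi : ℕ → ℕ × ℕ := fun k => (k.minFac, k.factorization k.minFac) with hphi
  have hpow : ∀ k ∈ S, k.minFac ^ k.factorization k.minFac = k := fun k hk => by
    rw [hS, mem_filter] at hk
    exact hk.2.2.minFac_pow_factorization_eq
  have hinj : Set.InjOn phi S := by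
    intro a ha b hb hab
    rw [hphi] at hab
    simp only [Prod.mk.injEq] at hab
    calc a = a.minFac ^ a.factorization a.minFac := (hpow a ha).symm
      _ = b.minFac ^ b.factorization b.minFac := by rw [hab.2, hab.1]
      _ = b := hpow b hb
  set G : ℕ × ℕ → ℝ := fun x => Lm x.1 * (1 / Real.sqrt x.1) ^ x.2 with hG
  have hFG : ∀ k ∈ S, Lm k / Real.sqrt k = G (phi k) := by
    intro k hk
    have hp := hpow k hk
    rw [hS, mem_filter, mem_Icc] at hk
    have hk2 : 2 ≤ k := hk.2.2.two_le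
    have hmf : k.minFac.Prime := Nat.minFac_prime (by omega)
    have hL : Lm k = Lm k.minFac := by
      unfold Lm
      rw [ArithmeticFunction.vonMangoldt_apply, if_pos hk.2.2,
        ArithmeticFunction.vonMangoldt_apply_prime hmf]
    have hk' : Real.sqrt k = Real.sqrt k.minFac ^ k.factorization k.minFac := by
      have h1 : (k : ℝ) = (k.minFac : ℝ) ^ k.factorization k.minFac := by
        exact_mod_cast hp.symm
      conv_lhs => rw [h1]
      rw [Real.sqrt_eq_iff_mul_self_eq (by positivity) (by positivity), ← mul_pow,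
        Real.mul_self_sqrt (by positivity)]
    rw [hG, hphi]
    dsimp only
    rw [hL, hk', one_div, inv_pow, div_eq_mul_inv]
  rw [Finset.sum_congr rfl hFG, ← Finset.sum_image (f := G) hinj]
  have hrange : S.image phi ⊆ ((Icc 1 N).filter (fun p => 2 ≤ p)) ×ˢ (Icc 2 N) := by
    intro x hx
    rw [mem_image] at hx
    obtain ⟨k, hk, rfl⟩ := hx
    have hp := hpow k hk
    rw [hS, mem_filter, mem_Icc] at hk
    obtain ⟨⟨hk1, hkN⟩, hkp, hkpp⟩ := hk
    have hk2 : 2 ≤ k := hkpp.two_le
    have hmf : k.minFac.Prime := Nat.minFac_prime (by omega)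
    have hm2 : 2 ≤ k.factorization k.minFac := by
      by_contra h
      have h1 : k.factorization k.minFac = 0 ∨ k.factorization k.minFac = 1 := by omega
      rcases h1 with h1 | h1
      · rw [h1, pow_zero] at hp
        omega
      · rw [h1, pow_one] at hp
        exact hkp (hp ▸ hmf)
    have hmN : k.factorization k.minFac ≤ N := by
      have h1 : k.factorization k.minFac < 2 ^ k.factorization k.minFac := Nat.lt_two_pow_self
      have h2 : 2 ^ k.factorization k.minFac ≤ k.minFac ^ k.factorization k.minFac :=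
        Nat.pow_le_pow_left hmf.two_le _
      rw [hp] at h2
      omega
    have hpN : k.minFac ≤ N := (Nat.minFac_le (by omega)).trans hkN
    rw [mem_product, mem_filter, mem_Icc, mem_Icc]
    exact ⟨⟨⟨le_trans one_le_two hmf.two_le, hpN⟩, hmf.two_le⟩, ⟨hm2, hmN⟩⟩
  have hG0 : ∀ x, 0 ≤ G x := by
    intro x
    rw [hG]
    dsimp only
    exact mul_nonneg (Lm_nonneg _) (by positivity)
  calc ∑ x ∈ S.image phi, G x ≤ ∑ x ∈ ((Icc 1 N).filter (fun p => 2 ≤ p)) ×ˢ (Icc 2 N), G x :=
        Finset.sum_le_sum_of_subset_of_nonneg hrange fun x _ _ => hG0 x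
    _ = ∑ p ∈ (Icc 1 N).filter (fun p => 2 ≤ p), Lm p * ∑ m ∈ Icc 2 N, (1 / Real.sqrt p) ^ m := by
        rw [Finset.sum_product]
        refine Finset.sum_congr rfl fun p _ => ?_
        rw [Finset.mul_sum]
    _ ≤ ∑ p ∈ (Icc 1 N).filter (fun p => 2 ≤ p), Lm p * (4 / (p : ℝ)) := by
        refine Finset.sum_le_sum fun p hp => ?_
        exact mul_le_mul_of_nonneg_left (geo p (mem_filter.1 hp).2 N) (Lm_nonneg p)
    _ ≤ ∑ p ∈ Icc 1 N, Lm p * (4 / (p : ℝ)) :=
        Finset.sum_le_sum_of_subset_of_nonneg (filter_subset _ _) fun p _ _ =>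
          mul_nonneg (Lm_nonneg p) (by positivity)
    _ = 4 * ∑ k ∈ Icc 1 N, Lm k / k := by
        rw [Finset.mul_sum]
        exact Finset.sum_congr rfl fun p _ => by ring

theorem ppw : PpwStatement := by
  obtain ⟨C, hC0, hC⟩ := mertens
  refine ⟨4 * (1 + C), by positivity, fun T lam t hT hlam => ?_⟩
  have hlT : 0 < Real.log T := Real.log_pos (by linarith)
  have hL1 : 1 ≤ lam * Real.log T := by rwa [div_le_iff₀ hlT] at hlam
  have hL0 : 0 < lam * Real.log T := by linarith
  set L : ℝ := lam * Real.log T with hLdef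
  have hTl : Real.log (T ^ lam) = L := by rw [Real.log_rpow (by linarith)]
  have hTl1 : 1 ≤ T ^ lam := by
    refine Real.one_le_rpow (by linarith) ?_
    by_contra h
    have : lam * Real.log T ≤ 0 := mul_nonpos_of_nonpos_of_nonneg (by linarith) hlT.le
    linarith
  set N : ℕ := ⌊T ^ lam⌋₊ with hN
  have hN1 : 1 ≤ N := Nat.le_floor (by simpa using hTl1)
  have hNT : (N : ℝ) ≤ T ^ lam := Nat.floor_le (by linarith)
  have hlN : Real.log N ≤ L := by
    rw [← hTl]
    exact Real.log_le_log (by exact_mod_cast hN1) hNT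
  have e1 : BB lam T (1 / 2 + t * Complex.I) - BP lam T (1 / 2 + t * Complex.I) =
      ∑ n ∈ Icc 1 N, ((bb lam T n - bp lam T n : ℝ) : ℂ) *
        (n : ℂ) ^ (-(1 / 2 + t * Complex.I)) := by
    unfold BB BP dpoly
    rw [← Finset.sum_sub_distrib]
    refine Finset.sum_congr rfl fun n _ => ?_
    push_cast
    ring
  rw [e1]
  refine (norm_sum_le _ _).trans ?_
  have hterm : ∀ n ∈ Icc 1 N, ‖((bb lam T n - bp lam T n : ℝ) : ℂ) *
        (n : ℂ) ^ (-(1 / 2 + t * Complex.I))‖ ≤
      if ¬ n.Prime then (1 / L) * (Lm n / Real.sqrt n) else 0 := by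
    intro n hn
    rw [mem_Icc] at hn
    have hn0 : 0 < n := hn.1
    have hnT : (n : ℝ) ≤ T ^ lam := by
      refine le_trans ?_ hNT
      exact_mod_cast hn.2
    have hn1 : (1 : ℝ) ≤ n := by exact_mod_cast hn.1
    by_cases hp : n.Prime
    · have : bp lam T n = bb lam T n := by
        show (if n.Prime then bb lam T n else 0) = _
        rw [if_pos hp]
      rw [this]
      simp [hp]
    · have : bp lam T n = 0 := by
        show (if n.Prime then bb lam T n else 0) = _
        rw [if_neg hp]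
      rw [this, sub_zero, if_pos hp, norm_mul, Complex.norm_real,
        Complex.norm_natCast_cpow_of_pos hn0]
      have hbb : bb lam T n = Lm n * (1 - Real.log n / L) / L := by
        show bbf lam T n = _
        unfold bbf Lm
        rw [if_pos hnT]
      have hln0 : 0 ≤ Real.log n := Real.log_nonneg hn1
      have hln : Real.log n ≤ L := by
        rw [← hTl]
        exact Real.log_le_log (by linarith) hnT
      have h0 : 0 ≤ 1 - Real.log n / L := by
        rw [sub_nonneg, div_le_one hL0]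
        exact hln
      have h1 : 1 - Real.log n / L ≤ 1 := by
        have : 0 ≤ Real.log n / L := div_nonneg hln0 hL0.le
        linarith
      have hb0 : 0 ≤ bb lam T n := by
        rw [hbb]
        exact div_nonneg (mul_nonneg (Lm_nonneg n) h0) hL0.le
      have hb1 : bb lam T n ≤ Lm n / L := by
        rw [hbb]
        refine div_le_div_of_nonneg_right ?_ hL0.le
        calc Lm n * (1 - Real.log n / L) ≤ Lm n * 1 :=
              mul_le_mul_of_nonneg_left h1 (Lm_nonneg n)
          _ = Lm n := mul_one _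
      have hre : (-(1 / 2 + (t : ℂ) * Complex.I)).re = -(1 / 2) := by simp
      rw [hre, Real.norm_eq_abs, abs_of_nonneg hb0, Real.rpow_neg (by linarith),
        ← Real.sqrt_eq_rpow]
      calc bb lam T n * (Real.sqrt n)⁻¹ ≤ Lm n / L * (Real.sqrt n)⁻¹ :=
            mul_le_mul_of_nonneg_right hb1 (by positivity)
        _ = (1 / L) * (Lm n / Real.sqrt n) := by ring
  refine (Finset.sum_le_sum hterm).trans ?_
  rw [← Finset.sum_filter, ← Finset.mul_sum]
  have h1 := pp_sqrt N
  have h2 := (abs_le.1 (hC N hN1)).2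
  have h3 : ∑ k ∈ (Icc 1 N).filter (fun k => ¬ k.Prime), Lm k / Real.sqrt k ≤
      4 * (L + C) := by linarith
  calc 1 / L * ∑ k ∈ (Icc 1 N).filter (fun k => ¬ k.Prime), Lm k / Real.sqrt k
      ≤ 1 / L * (4 * (L + C)) := mul_le_mul_of_nonneg_left h3 (by positivity)
    _ = 4 * (1 + C / L) := by field_simp
    _ ≤ 4 * (1 + C) := by
        have : C / L ≤ C := div_le_self hC0 hL1
        linarith

end Pool.Agent.Lib.MP_6bc78b_nt.MS.P5.H22
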